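import Pool.Agent.H31R3.AT.Anti

set_option autoImplicit false

/-!
The countable-or-perfect dichotomy for the isomorphism types of linear orders with a binary relation which is increasing in both
coordinates (for example, given by an order-reversing map), and with unary predicates.
-/

namespace Pool.Agent.Results.MP_5607ba_lc.AntitoneRelations

/-- Structures on `ℕ`: binary relations `x.1`, `x.2.1` and unary predicates `x.2.2 i`. -/
abbrev Structures : Type := (ℕ → ℕ → Bool) × (ℕ → ℕ → Bool) × (ℕ → ℕ → Bool)

/-- `x.1` is a strict linear order and the relation `x.2.1` is increasing in both coordinates. (If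
`f` is an order-reversing map from the linear order to itself, then `f m ≤ n` is such a relation of
`m` and `n`, and it determines `f`.) -/
structure AntitoneOrder (x : Structures) : Prop where
  irrefl : ∀ m, x.1 m m = false
  trans : ∀ m n k, x.1 m n = true → x.1 n k = true → x.1 m k = true
  total : ∀ m n, m ≠ n → x.1 m n = true ∨ x.1 n m = true
  left : ∀ m n k, x.1 m n = true → x.2.1 m k = true → x.2.1 n k = true
  right : ∀ m n k, x.1 n k = true → x.2.1 m n = true → x.2.1 m k = true

/-- `σ` is an isomorphism from `x` to `y`. -/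
def IsIso (σ : Equiv.Perm ℕ) (x y : Structures) : Prop :=
  (∀ m n, y.1 (σ m) (σ n) = x.1 m n) ∧ (∀ m n, y.2.1 (σ m) (σ n) = x.2.1 m n) ∧
    ∀ i m, y.2.2 i (σ m) = x.2.2 i m

/-- Every isomorphism-invariant Borel class `B` of linear orders on `ℕ` with a relation increasing
in both coordinates and unary predicates contains countably many isomorphism types, or there is a
continuous map from the Cantor space into `B` with pairwise non-isomorphic values. -/
theorem result (B : Set Structures) (hB : MeasurableSet B) (hA : ∀ x ∈ B, AntitoneOrder x)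
    (hi : ∀ x ∈ B, ∀ (y : Structures) (σ : Equiv.Perm ℕ), IsIso σ x y → y ∈ B) :
    (∃ f : ℕ → Structures, ∀ x ∈ B, ∃ (n : ℕ) (σ : Equiv.Perm ℕ), IsIso σ (f n) x) ∨
    (∃ c : (ℕ → Bool) → Structures, Continuous c ∧ (∀ s, c s ∈ B) ∧
      ∀ s t, (∃ σ : Equiv.Perm ℕ, IsIso σ (c s) (c t)) → s = t) := by
  have key : ∀ (σ : Equiv.Perm ℕ) (x y : Structures),
      IsIso σ x y ↔ y = Pool.Agent.H31R3.AT.act3 σ x := by
    intro σ x y
    constructor
    · rintro ⟨h1, h2, h4⟩
      refine Prod.ext ?_ (Prod.ext ?_ ?_)
      · funext m n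
        have h3 := h1 (σ.symm m) (σ.symm n)
        rw [σ.apply_symm_apply, σ.apply_symm_apply] at h3
        exact h3
      · funext m n
        have h3 := h2 (σ.symm m) (σ.symm n)
        rw [σ.apply_symm_apply, σ.apply_symm_apply] at h3
        exact h3
      · funext i m
        have h3 := h4 i (σ.symm m)
        rw [σ.apply_symm_apply] at h3
        exact h3
    · rintro rfl
      refine ⟨fun m n => ?_, fun m n => ?_, fun i m => ?_⟩
      · show x.1 (σ.symm (σ m)) (σ.symm (σ n)) = x.1 m n
        rw [σ.symm_apply_apply, σ.symm_apply_apply]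
      · show x.2.1 (σ.symm (σ m)) (σ.symm (σ n)) = x.2.1 m n
        rw [σ.symm_apply_apply, σ.symm_apply_apply]
      · show x.2.2 i (σ.symm (σ m)) = x.2.2 i m
        rw [σ.symm_apply_apply]
  rcases Pool.Agent.H31R3.AT.dch_anti B hB
    (fun x hx => ⟨(hA x hx).irrefl, (hA x hx).trans, (hA x hx).total, (hA x hx).left,
      (hA x hx).right⟩)
    (fun x hx σ => hi x hx _ σ ((key σ x _).2 rfl)) with ⟨f, hf⟩ | ⟨g, hg, hgB, hgi⟩
  · left
    refine ⟨f, fun x hx => ?_⟩
    obtain ⟨n, σ, h⟩ := hf x hx
    exact ⟨n, σ, (key σ _ _).2 h⟩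
  · right
    refine ⟨g, hg, hgB, ?_⟩
    rintro s t ⟨σ, h⟩
    exact hgi s t ⟨σ, (key σ _ _).1 h⟩

end Pool.Agent.Results.MP_5607ba_lc.AntitoneRelations
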