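import Pool.Agent.H702R3.TV.Inst

set_option autoImplicit false

/-!
The countable-or-perfect dichotomy for classes of countable structures with binary relations and
unary predicates is preserved under adding finitely many elements, with arbitrary relations between
the new elements and all elements. Instances: linear orders with a monotone relation, partial
orders of width two, and semiorders, each off a finite set.
-/

namespace Pool.Agent.Results.MP_5607ba_lc.FiniteExtensions

open Pool.Agent.H702R3.TV.Ext

/-- The structures that are isomorphic to a structure `y` whose binary relations, restricted to the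
complement of a finite set `{0, ..., n - 1}` (and renumbered), form a member of `V`. -/
def Extensions (V : Set Sys) : Set W :=
  {x | ∃ (n : ℕ) (y : W) (σ : Equiv.Perm ℕ), IsoW σ x y ∧ rest n y ∈ V}

/-- The dichotomy for all invariant Borel sets of members of `K`. -/
def Vaught (K : Set W) : Prop :=
  ∀ B : Set W, MeasurableSet B → Pool.Agent.H702R3.TV.Ext.Inv B → B ⊆ K → CP B

theorem result :
    -- the closure theorem
    (∀ V : Set Sys, MeasurableSet V →
      (∀ T ∈ V, ∀ σ : Equiv.Perm ℕ, (fun i m k => T i (σ m) (σ k)) ∈ V) →
      Vaught {z | z.1 ∈ V} → Vaught (Extensions V)) ∧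
    -- instances
    Vaught (Extensions {T | MonoOrd T}) ∧
    Vaught (Extensions {T | WidthTwo T}) ∧
    Vaught (Extensions {T | SemiOrd T}) := by
  have key : ∀ V : Set Sys, MeasurableSet V →
      (∀ T ∈ V, ∀ σ : Equiv.Perm ℕ, (fun i m k => T i (σ m) (σ k)) ∈ V) →
      Vaught {z | z.1 ∈ V} → Vaught (Extensions V) := by
    intro V hVm hVi hD B hB hi hV
    exact closure' V hVm hVi (fun C hC hCi hCV => hD C hC hCi hCV) B hB hi (fun x hx => hV hx)
  exact ⟨key,
    key _ m_mono (fun T hT σ => i_mono T hT σ) (fun C hC hi hV => hD_mono C hC hi fun z hz => hV hz),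
    key _ m_width (fun T hT σ => i_width T hT σ)
      (fun C hC hi hV => hD_width C hC hi fun z hz => hV hz),
    key _ m_semi (fun T hT σ => i_semi T hT σ)
      (fun C hC hi hV => hD_semi C hC hi fun z hz => hV hz)⟩

end Pool.Agent.Results.MP_5607ba_lc.FiniteExtensions
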