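import Pool.Agent.H579R3.SE

set_option autoImplicit false

/-!
The countable-or-perfect dichotomy for wreath products `G ≀ Sym(ℕ)`, with `G` an arbitrary Polish
group, acting on invariant Borel sets of sequences which are closed under infinite repetition, and
for invariant Borel sets of sequences under the relation of listing the same classes of an
arbitrary analytic equivalence relation.
-/

namespace Pool.Agent.Results.MP_5607ba_lc.InfiniteRepetition

open MeasureTheory Pool.Agent.H579R3.SV

/-- The sequence in which each term of `y` is repeated infinitely often. -/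
def repeated {X : Type} (y : ℕ → X) : ℕ → X := fun n => y (Nat.unpair n).1

/-- `y` and `z` are in the same orbit of the wreath product `G ≀ Sym(ℕ)` acting on the sequences
of elements of `X`. -/
def SameOrbit (G : Type) {X : Type} [SMul G X] (y z : ℕ → X) : Prop :=
  ∃ (g : ℕ → G) (π : Equiv.Perm ℕ), ∀ n, z n = g n • y (π n)

/-- `y` and `z` list the same classes of `E`. -/
def ListSame {X : Type} (E : X → X → Prop) (y z : ℕ → X) : Prop :=
  (∀ i, ∃ j, E (y i) (z j)) ∧ ∀ j, ∃ i, E (y i) (z j)

/-- `V` meets countably many classes of `R`, or there is a Borel map from the Cantor space to `V`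
with pairwise `R`-inequivalent values. -/
def Dichotomy {Y : Type} [MeasurableSpace Y] (R : Y → Y → Prop) (V : Set Y) : Prop :=
  (∃ S ⊆ V, S.Countable ∧ ∀ y ∈ V, ∃ z ∈ S, R y z) ∨
    ∃ f : (ℕ → Bool) → Y, Measurable f ∧ (∀ b, f b ∈ V) ∧ ∀ b b', b ≠ b' → ¬ R (f b) (f b')

theorem orbit_iff {G X : Type} [Group G] [MulAction G X] (y z : ℕ → X) :
    SameOrbit G y z ↔ WE (fun x x' : X => ∃ g : G, g • x = x') y z := by
  constructor
  · rintro ⟨g, π, h⟩
    refine ⟨π.symm, fun i => ⟨g (π.symm i), ?_⟩⟩
    rw [h (π.symm i), π.apply_symm_apply]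
  · rintro ⟨π, h⟩
    choose g hg using h
    refine ⟨fun n => g (π.symm n), π.symm, fun n => ?_⟩
    rw [hg, π.apply_symm_apply]

theorem group_version (G : Type) [TopologicalSpace G] [Group G] [IsTopologicalGroup G]
    [PolishSpace G] [MeasurableSpace G] [BorelSpace G] (X : Type) [MeasurableSpace X]
    [StandardBorelSpace X] [MulAction G X] [MeasurableSMul₂ G X] (A : Set (ℕ → X))
    (hA : MeasurableSet A) (hinv : ∀ y ∈ A, ∀ z, SameOrbit G y z → z ∈ A) :
    ((∀ y ∈ A, repeated y ∈ A) → Dichotomy (SameOrbit G) A) ∧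
      Dichotomy (SameOrbit G) {y | y ∈ A ∧ SameOrbit G y (repeated y)} := by
  letI := upgradeStandardBorel X
  have hE : Equivalence (fun x x' : X => ∃ g : G, g • x = x') :=
    ⟨fun x => ⟨1, one_smul _ _⟩, by
      rintro x x' ⟨g, rfl⟩
      exact ⟨g⁻¹, inv_smul_smul _ _⟩, by
      rintro x x' x'' ⟨g, rfl⟩ ⟨g', rfl⟩
      exact ⟨g' * g, mul_smul _ _ _⟩⟩
  have hEa : AnalyticSet {q : X × X | ∃ g : G, g • q.1 = q.2} := by
    have hm : Measurable fun p : G × X => (p.2, p.1 • p.2) :=
      measurable_snd.prodMk (measurable_fst.smul measurable_snd)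
    have : {q : X × X | ∃ g : G, g • q.1 = q.2} = (fun p : G × X => (p.2, p.1 • p.2)) '' Set.univ := by
      ext ⟨x, x'⟩
      constructor
      · rintro ⟨g, hg⟩
        exact ⟨(g, x), trivial, Prod.ext rfl hg⟩
      · rintro ⟨⟨g, x1⟩, -, h⟩
        have h1 : x1 = x := congrArg Prod.fst h
        have h2 : g • x1 = x' := congrArg Prod.snd h
        exact ⟨g, by rw [← h2, h1]⟩
    rw [this]
    exact MeasurableSet.univ.analyticSet_image hm
  have hd : ∀ V : Set (ℕ → X), Dich (fun x x' : X => ∃ g : G, g • x = x') V →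
      Dichotomy (SameOrbit G) V := by
    rintro V (⟨S, h1, h2, h3⟩ | ⟨h, h1, h2, h3⟩)
    · left
      refine ⟨S, h1, h2, fun y hy => ?_⟩
      obtain ⟨z, hz, hw⟩ := h3 y hy
      exact ⟨z, hz, (orbit_iff _ _).2 hw⟩
    · right
      exact ⟨h, h1.measurable, h2, fun b b' hb hc => h3 b b' hb ((orbit_iff _ _).1 hc)⟩
  obtain ⟨h1, h2⟩ := wreath hE hEa hA fun y z h hy => hinv y hy z ((orbit_iff _ _).2 h)
  refine ⟨fun h => hd _ (h1 h), ?_⟩
  have : {y | y ∈ A ∧ SameOrbit G y (repeated y)} =
      {y | y ∈ A ∧ WE (fun x x' : X => ∃ g : G, g • x = x') y (rep y)} := by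
    ext y
    exact and_congr_right fun _ => orbit_iff _ _
  rw [this]
  exact hd _ h2

/-- (1) Let `G` be a Polish group, `X` a Borel `G`-space and `A` a Borel set of sequences of
elements of `X` which is invariant under `G ≀ Sym(ℕ)`. If `A` is closed under infinite repetition
then `A` has countably many or perfectly many orbits. Without this hypothesis, the same holds for
the elements of `A` which are in the orbit of their infinite repetition. (2) Let `E` be an
analytic equivalence relation on a Polish space and `A` a Borel set of sequences which is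
invariant under listing the same classes of `E`. Then the latter relation has countably many or
perfectly many classes on `A`. -/
theorem result :
    (∀ (G : Type) [TopologicalSpace G] [Group G] [IsTopologicalGroup G] [PolishSpace G]
      [MeasurableSpace G] [BorelSpace G] (X : Type) [MeasurableSpace X] [StandardBorelSpace X]
      [MulAction G X] [MeasurableSMul₂ G X] (A : Set (ℕ → X)), MeasurableSet A →
      (∀ y ∈ A, ∀ z, SameOrbit G y z → z ∈ A) →
        ((∀ y ∈ A, repeated y ∈ A) → Dichotomy (SameOrbit G) A) ∧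
          Dichotomy (SameOrbit G) {y | y ∈ A ∧ SameOrbit G y (repeated y)}) ∧
    ∀ (X : Type) [TopologicalSpace X] [PolishSpace X] [MeasurableSpace X] [BorelSpace X]
      (E : X → X → Prop), Equivalence E → AnalyticSet {q : X × X | E q.1 q.2} →
      ∀ A : Set (ℕ → X), MeasurableSet A → (∀ y ∈ A, ∀ z, ListSame E y z → z ∈ A) →
        Dichotomy (ListSame E) A := by
  refine ⟨fun G _ _ _ _ _ _ X _ _ _ _ A hA hinv => group_version G X A hA hinv,
    fun X _ _ _ _ E hE hEa A hA hinv => ?_⟩
  rcases jump hE hEa hA (fun y z h hy => hinv y hy z h) with h | ⟨h, h1, h2, h3⟩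
  · exact Or.inl h
  · exact Or.inr ⟨h, h1.measurable, h2, h3⟩

end Pool.Agent.Results.MP_5607ba_lc.InfiniteRepetition
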