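import Pool.Agent.H702R3.TV.Main

set_option autoImplicit false

/-!
The countable-or-perfect dichotomy passes to countable-to-one equivariant quotients, for arbitrary
Polish groups, and holds for the isomorphism types of betweenness relations, circular orders and
separation relations on `ℕ` with a monotone binary relation and unary predicates, and for all
classes of reducts of linear orders from which the order can be recovered up to countably many
choices.
-/

namespace Pool.Agent.Results.MP_5607ba_lc.OrderReducts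

open Pool.Agent.H702R3.TV

/-- The set `B` of structures is invariant under the permutations of `ℕ`. -/
def Invariant {k : ℕ} (B : Set (Yk k)) : Prop :=
  ∀ x ∈ B, ∀ (y : Yk k) (σ : Equiv.Perm ℕ), IsoY σ x y → y ∈ B

/-- `B` has countably many isomorphism types, or there is a continuous map from the Cantor space
into `B` with pairwise non-isomorphic values. -/
def CountableOrPerfect {k : ℕ} (B : Set (Yk k)) : Prop :=
  (∃ f : ℕ → Yk k, ∀ x ∈ B, ∃ (n : ℕ) (σ : Equiv.Perm ℕ), IsoY σ (f n) x) ∨
  (∃ c : (ℕ → Bool) → Yk k, Continuous c ∧ (∀ a, c a ∈ B) ∧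
    ∀ a b, (∃ σ : Equiv.Perm ℕ, IsoY σ (c a) (c b)) → a = b)

theorem result :
    -- countable-to-one equivariant quotients
    (∀ (H G X Y : Type) [Group H] [Group G] [TopologicalSpace G] [IsTopologicalGroup G]
      [PolishSpace G] [MeasurableSpace G] [BorelSpace G] [MeasurableSpace X]
      [StandardBorelSpace X] [MeasurableSpace Y] [StandardBorelSpace Y] [MulAction H X]
      [MulAction G Y], Measurable (fun p : G × Y => p.1 • p.2) →
      ∀ (φ : H →* G) (ρ : X → Y), Measurable ρ → (∀ h x, ρ (h • x) = φ h • ρ x) →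
      ∀ A : Set X, (∀ y : Y, ∃ C : Set X, C.Countable ∧ ∀ x ∈ A, (∃ g : G, g • y = ρ x) →
        ∃ c ∈ C, ∃ h : H, h • c = x) →
      Dichotomy H A → Dichotomy G (ρ '' A)) ∧
    -- reducts from which the order can be recovered up to countably many choices
    (∀ (k : ℕ) (T : Red k) (B : Set (Yk k)), MeasurableSet B → Invariant B →
      (∀ x ∈ B, ∃ r : ℕ → ℕ → Prop, SLO r ∧ Mono r x.2.1 ∧ T.L r ∧
        ∀ v, x.1 v = true ↔ T.τ r v) → CountableOrPerfect B) ∧
    -- betweenness relations
    (∀ B : Set (Yk 3), MeasurableSet B → Invariant B →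
      (∀ x ∈ B, ∃ r : ℕ → ℕ → Prop, SLO r ∧ Mono r x.2.1 ∧
        ∀ u v w, x.1 ![u, v, w] = true ↔ Btw r u v w) → CountableOrPerfect B) ∧
    -- circular orders
    (∀ B : Set (Yk 3), MeasurableSet B → Invariant B →
      (∀ x ∈ B, ∃ r : ℕ → ℕ → Prop, SLO r ∧ Mono r x.2.1 ∧ (∃ p, Least r p) ∧
        ∀ u v w, x.1 ![u, v, w] = true ↔ Cyc r u v w) → CountableOrPerfect B) ∧
    -- separation relations
    (∀ B : Set (Yk 4), MeasurableSet B → Invariant B →
      (∀ x ∈ B, ∃ r : ℕ → ℕ → Prop, SLO r ∧ Mono r x.2.1 ∧ (∃ p, Least r p) ∧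
        ∀ u v w t, x.1 ![u, v, w, t] = true ↔ Sep r u v w t) → CountableOrPerfect B) := by
  have e3 : ∀ v : Fin 3 → ℕ, ![v 0, v 1, v 2] = v := by
    intro v
    funext j
    fin_cases j <;> rfl
  have e4 : ∀ v : Fin 4 → ℕ, ![v 0, v 1, v 2, v 3] = v := by
    intro v
    funext j
    fin_cases j <;> rfl
  refine ⟨?_, fun k T B hB hi hV => red_main T base B hB hV hi, fun B hB hi hV => ?_,
    fun B hB hi hV => ?_, fun B hB hi hV => ?_⟩
  · intro H G X Y _ _ _ _ _ _ _ _ _ _ _ _ _ hY φ ρ hρ hφ A hc hA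
    exact quotient hY φ ρ hρ hφ A hc hA
  · refine red_main TB base B hB (fun x hx => ?_) hi
    obtain ⟨r, h1, h2, h3⟩ := hV x hx
    refine ⟨r, h1, h2, trivial, fun v => ?_⟩
    have := h3 (v 0) (v 1) (v 2)
    rw [e3] at this
    exact this
  · refine red_main TC base B hB (fun x hx => ?_) hi
    obtain ⟨r, h1, h2, h4, h3⟩ := hV x hx
    refine ⟨r, h1, h2, h4, fun v => ?_⟩
    have := h3 (v 0) (v 1) (v 2)
    rw [e3] at this
    exact this
  · refine red_main TS base B hB (fun x hx => ?_) hi
    obtain ⟨r, h1, h2, h4, h3⟩ := hV x hx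
    refine ⟨r, h1, h2, h4, fun v => ?_⟩
    have := h3 (v 0) (v 1) (v 2) (v 3)
    rw [e4] at this
    exact this

end Pool.Agent.Results.MP_5607ba_lc.OrderReducts
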